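import Mathlib
import Pool.Agent.H933R3.Defs

set_option autoImplicit false

/-!
# Iterated cones over the 3-ball `B_{12,38}` of Benedetti and Lutz: combinatorics

The facets of the 3-ball on the vertices `0, …, 11` are given as bit masks.
-/

namespace Pool.Agent.Run7.h935.NLC

open Finset Pool.Agent.H933R3

/-- the facets of the 3-ball, as bit masks -/
def Bp : List ℕ :=
  [23, 75, 531, 579, 2061, 329, 2313, 1073, 1553, 1185, 2209, 1345, 1601, 1409, 2433, 1038, 278,
   1286, 2322, 2578, 2242, 2626, 1410, 2434, 1068, 2092, 1316, 2200, 2328, 1192, 2216, 1136,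
   2256, 3152, 3600, 1376, 3648, 15]

/-- the set of vertices with mask `b` together with all cone vertices `12, …, 11 + m` -/
def FF (m b : ℕ) : Finset (Fin (12 + m)) := univ.filter (fun i => (i : ℕ) < 12 → b.testBit i = true)

theorem mem_FF {m b : ℕ} {i : Fin (12 + m)} : i ∈ FF m b ↔ ((i : ℕ) < 12 → b.testBit i = true) := by
  simp [FF]

/-- the iterated cone -/
def KK (m : ℕ) : Finset (Finset (Fin (12 + m))) :=
  univ.filter (fun σ => ∃ b ∈ Bp, σ ⊆ FF m b)

theorem mem_KK {m : ℕ} {σ : Finset (Fin (12 + m))} : σ ∈ KK m ↔ ∃ b ∈ Bp, σ ⊆ FF m b := by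
  simp [KK]

theorem isCx_KK (m : ℕ) : IsCx (KK m) := by
  constructor
  · exact mem_KK.2 ⟨15, by decide, empty_subset _⟩
  · intro σ hσ τ hτ
    obtain ⟨b, hb, h⟩ := mem_KK.1 hσ
    exact mem_KK.2 ⟨b, hb, hτ.trans h⟩

/-- number of vertices of a mask -/
def pc (b : ℕ) : ℕ := ((List.range 12).filter (fun i => b.testBit i)).length

theorem card_FF (m b : ℕ) : (FF m b).card = m + pc b := by
  have h1 : ((FF m b).map Fin.valEmbedding) =
      ((range 12).filter (fun i => b.testBit i = true)) ∪ Ico 12 (12 + m) := by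
    ext n
    simp only [mem_map, mem_union, mem_filter, mem_range, mem_Ico, Fin.valEmbedding_apply]
    constructor
    · rintro ⟨i, hi, rfl⟩
      rw [mem_FF] at hi
      have := i.2
      by_cases h : (i : ℕ) < 12
      · exact Or.inl ⟨h, hi h⟩
      · exact Or.inr ⟨by omega, this⟩
    · rintro (⟨h1, h2⟩ | ⟨h1, h2⟩)
      · exact ⟨⟨n, by omega⟩, mem_FF.2 (fun _ => h2), rfl⟩
      · exact ⟨⟨n, h2⟩, mem_FF.2 (fun h => absurd h (by simp only; omega)), rfl⟩
  have h2 : Disjoint ((range 12).filter (fun i => b.testBit i = true)) (Ico 12 (12 + m)) := by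
    rw [Finset.disjoint_left]
    intro n h3 h4
    rw [mem_filter, mem_range] at h3
    rw [mem_Ico] at h4
    omega
  have h3 : ((range 12).filter (fun i => b.testBit i = true)).card = pc b := by
    have h4 : ((range 12).filter (fun i => b.testBit i = true)).card =
        (List.filter (fun i => decide (b.testBit i = true)) (List.range 12)).length := rfl
    rw [h4, pc]
    simp only [Bool.decide_eq_true]
  calc (FF m b).card = ((FF m b).map Fin.valEmbedding).card := (card_map _).symm
    _ = _ := by rw [h1, card_union_of_disjoint h2, h3, Nat.card_Ico]; omega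

theorem pc_Bp : ∀ b ∈ Bp, pc b = 4 := by decide +kernel

theorem card_FF_Bp {m b : ℕ} (hb : b ∈ Bp) : (FF m b).card = m + 4 := by
  rw [card_FF, pc_Bp b hb]

theorem isFacet_iff {m : ℕ} {F : Finset (Fin (12 + m))} :
    IsFacet (KK m) F ↔ ∃ b ∈ Bp, F = FF m b := by
  constructor
  · rintro ⟨h1, h2⟩
    obtain ⟨b, hb, h⟩ := mem_KK.1 h1
    exact ⟨b, hb, (h2 _ (mem_KK.2 ⟨b, hb, Subset.refl _⟩) h).symm⟩
  · rintro ⟨b, hb, rfl⟩
    refine ⟨mem_KK.2 ⟨b, hb, Subset.refl _⟩, ?_⟩
    intro G hG hbG
    obtain ⟨b', hb', h⟩ := mem_KK.1 hG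
    have h1 : (FF m b).card = m + 4 := card_FF_Bp hb
    have h2 : (FF m b').card = m + 4 := card_FF_Bp hb'
    have h3 := eq_of_subset_of_card_le hbG (by
      have := card_le_card h
      omega)
    exact h3.symm

theorem card_facet {m : ℕ} {F : Finset (Fin (12 + m))} (hF : IsFacet (KK m) F) :
    F.card = m + 4 := by
  obtain ⟨b, hb, rfl⟩ := isFacet_iff.1 hF
  exact card_FF_Bp hb

theorem FF_inter (m b c : ℕ) : FF m b ∩ FF m c = FF m (b &&& c) := by
  ext i
  rw [mem_inter, mem_FF, mem_FF, mem_FF, Nat.testBit_land]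
  constructor
  · rintro ⟨h1, h2⟩ h
    rw [h1 h, h2 h]; rfl
  · intro h
    constructor
    · intro h1
      have := h h1
      rw [Bool.and_eq_true] at this
      exact this.1
    · intro h1
      have := h h1
      rw [Bool.and_eq_true] at this
      exact this.2

def twoB : Bool :=
  Bp.all fun a => Bp.all fun b => Nat.beq a b || (Nat.ble (pc (a &&& b)) 2 ||
    Bp.all fun c => Nat.beq a c || (Nat.beq b c || Nat.ble (pc ((a &&& b) &&& c)) 2))

theorem twoB_true : twoB = true := by decide +kernel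

theorem atMostTwo_KK (m : ℕ) : AtMostTwo (m + 3) (KK m) := by
  intro R hR X Y Z hX hY hZ h1 h2 h3
  obtain ⟨a, ha, rfl⟩ := isFacet_iff.1 hX
  obtain ⟨b, hb, rfl⟩ := isFacet_iff.1 hY
  obtain ⟨c, hc, rfl⟩ := isFacet_iff.1 hZ
  have h := twoB_true
  rw [twoB, List.all_eq_true] at h
  have h' := h a ha
  rw [List.all_eq_true] at h'
  have h'' := h' b hb
  rw [Bool.or_eq_true, Bool.or_eq_true, List.all_eq_true] at h''
  rcases h'' with h4 | h4 | h4
  · left; rw [Nat.beq_eq] at h4; rw [h4]
  · exfalso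
    rw [Nat.ble_eq] at h4
    have h5 : R ⊆ FF m (a &&& b) := by
      rw [← FF_inter]
      exact subset_inter h1 h2
    have h6 := card_le_card h5
    rw [card_FF, hR] at h6
    omega
  · have h5 := h4 c hc
    rw [Bool.or_eq_true, Bool.or_eq_true, Nat.beq_eq, Nat.beq_eq, Nat.ble_eq] at h5
    rcases h5 with h5 | h5 | h5
    · right; left; rw [h5]
    · right; right; rw [h5]
    · exfalso
      have h6 : R ⊆ FF m ((a &&& b) &&& c) := by
        rw [← FF_inter, ← FF_inter]
        exact subset_inter (subset_inter h1 h2) h3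
      have h7 := card_le_card h6
      rw [card_FF, hR] at h7
      omega

section Cone

variable {V : Type} [DecidableEq V] [Fintype V]

/-- cones are non-evasive -/
theorem nonEvasive_cone (v : V) : ∀ (k : ℕ) (K : Finset (Finset V)), IsCx K →
    (∀ σ ∈ K, insert v σ ∈ K) → (univ.filter (fun w : V => w ≠ v ∧ {w} ∈ K)).card ≤ k →
    NonEvasive K := by
  intro k
  induction k with
  | zero =>
    intro K hK hv hk
    have h0 : ∀ w : V, {w} ∈ K → w = v := by
      intro w hw
      by_contra hne
      have : w ∈ univ.filter (fun w : V => w ≠ v ∧ {w} ∈ K) := mem_filter.2 ⟨mem_univ _, hne, hw⟩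
      rw [Nat.le_zero, card_eq_zero] at hk
      rw [hk] at this
      exact notMem_empty _ this
    have h1 : K = {∅, {v}} := by
      ext σ
      rw [mem_insert, mem_singleton]
      constructor
      · intro hσ
        rcases σ.eq_empty_or_nonempty with h | h
        · exact Or.inl h
        · right
          rw [Finset.eq_singleton_iff_nonempty_unique_mem]
          refine ⟨h, fun w hw => h0 w (hK.2 σ hσ _ (singleton_subset_iff.2 hw))⟩
      · rintro (rfl | rfl)
        · exact hK.1
        · have := hv ∅ hK.1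
          simpa using this
    rw [h1]
    exact NonEvasive.point v
  | succ k ih =>
    intro K hK hv hk
    by_cases hne : (univ.filter (fun w : V => w ≠ v ∧ {w} ∈ K)).card ≤ k
    · exact ih K hK hv hne
    have hne' : (univ.filter (fun w : V => w ≠ v ∧ {w} ∈ K)).Nonempty := by
      rw [← card_pos]; omega
    obtain ⟨w, hw⟩ := hne'
    obtain ⟨-, hwv, hwK⟩ := mem_filter.1 hw
    have hcard : ((univ.filter (fun u : V => u ≠ v ∧ {u} ∈ K)).erase w).card ≤ k := by
      rw [card_erase_of_mem hw]; omega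
    have hdel : (univ.filter (fun u : V => u ≠ v ∧ {u} ∈ del K w)) ⊆
        (univ.filter (fun u : V => u ≠ v ∧ {u} ∈ K)).erase w := by
      intro u
      simp only [mem_filter, mem_univ, true_and, mem_erase, del, mem_singleton]
      rintro ⟨h1, h2, h3⟩
      exact ⟨fun h => h3 h.symm, h1, h2⟩
    have hlink : (univ.filter (fun u : V => u ≠ v ∧ {u} ∈ link K w)) ⊆
        (univ.filter (fun u : V => u ≠ v ∧ {u} ∈ K)).erase w := by
      intro u
      simp only [mem_filter, mem_univ, true_and, mem_erase, link, mem_singleton]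
      rintro ⟨h1, h2, h3, -⟩
      exact ⟨fun h => h3 h.symm, h1, h2⟩
    have hcd : IsCx (del K w) := by
      constructor
      · exact mem_filter.2 ⟨hK.1, notMem_empty _⟩
      · intro σ hσ τ hτ
        rw [del, mem_filter] at hσ ⊢
        exact ⟨hK.2 σ hσ.1 τ hτ, fun h => hσ.2 (hτ h)⟩
    have hcl : IsCx (link K w) := by
      constructor
      · exact mem_filter.2 ⟨hK.1, notMem_empty _, by simpa using hwK⟩
      · intro σ hσ τ hτ
        rw [link, mem_filter] at hσ ⊢
        exact ⟨hK.2 σ hσ.1 τ hτ, fun h => hσ.2.1 (hτ h),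
          hK.2 _ hσ.2.2 _ (insert_subset_insert _ hτ)⟩
    have hvd : ∀ σ ∈ del K w, insert v σ ∈ del K w := by
      intro σ hσ
      rw [del, mem_filter] at hσ ⊢
      refine ⟨hv σ hσ.1, ?_⟩
      rw [mem_insert]
      rintro (h | h)
      · exact hwv h
      · exact hσ.2 h
    have hvl : ∀ σ ∈ link K w, insert v σ ∈ link K w := by
      intro σ hσ
      rw [link, mem_filter] at hσ ⊢
      refine ⟨hv σ hσ.1, ?_, ?_⟩
      · rw [mem_insert]
        rintro (h | h)
        · exact hwv h
        · exact hσ.2.1 h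
      · rw [insert_comm]
        exact hv _ hσ.2.2
    exact NonEvasive.step K w hwK (ih _ hcd hvd ((card_le_card hdel).trans hcard))
      (ih _ hcl hvl ((card_le_card hlink).trans hcard))

end Cone

theorem nonEvasive_KK {m : ℕ} (hm : 1 ≤ m) : NonEvasive (KK m) := by
  refine nonEvasive_cone (⟨12, by omega⟩ : Fin (12 + m)) _ (KK m) (isCx_KK m) ?_ le_rfl
  intro σ hσ
  obtain ⟨b, hb, h⟩ := mem_KK.1 hσ
  refine mem_KK.2 ⟨b, hb, insert_subset (mem_FF.2 fun h => absurd h ?_) h⟩
  simp

end Pool.Agent.Run7.h935.NLC
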