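import Mathlib
import Pool.Agent.Run7.h935.NLC.Comb
import Pool.Agent.R140.Ear.Chain
import Pool.Agent.Helper221.BID.ConeBall
import Pool.Agent.Helper175.NS.Main

set_option autoImplicit false

/-!
# The iterated cones are balls
-/

namespace Pool.Agent.Run7.h935.NLC

open Finset Pool.Agent.H933R3
open Pool.Agent.Helper221.BID (Cpx cone mem_cone cone_ball)

/-- exchanges of stellar subdivisions which transform the 3-ball into a single tetrahedron -/
def moves : List (ℕ × ℕ) :=
  [(8, 4096), (288, 68), (16, 8), (1033, 544), (3072, 584), (161, 3072), (2114, 640), (2050,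
   768), (3072, 161), (2177, 288), (544, 1033), (5152, 132), (2312, 4608), (266, 516), (896,
   2050), (32, 16), (132, 5136), (1024, 32), (4608, 2312), (640, 2114), (10, 517), (256, 1024),
   (3200, 18), (544, 73), (4112, 132), (512, 10), (32, 256), (2048, 32), (8, 512), (1, 8), (132,
   288), (64, 1), (18, 1184), (304, 132), (132, 304), (1024, 64), (768, 25), (8, 1024), (32, 8),
   (70, 768), (4096, 32), (1096, 48), (1152, 336), (1, 2048), (8, 1), (144, 321), (512, 8),
   (2049, 138), (1, 512), (514, 200), (64, 1), (1280, 2065), (1060, 514), (276, 2560), (3080,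
   18), (2, 64), (272, 2561), (264, 69), (1024, 2), (2048, 1024), (321, 132), (48, 515), (1280,
   517), (17, 1538), (257, 644), (520, 161), (2, 2048), (32, 2), (256, 32), (544, 134), (2052,
   520), (2049, 1538), (512, 256), (8, 512), (320, 2052), (1536, 144), (32, 194), (65, 644),
   (580, 2176), (3074, 320), (80, 1536), (4, 8), (64, 4), (12, 2178), (260, 3074), (1152, 20),
   (16, 32), (384, 11), (128, 16), (4, 1040), (2050, 272), (17, 522), (1, 4), (2056, 784), (16,
   1), (9, 770), (2049, 1792), (1282, 5), (258, 9), (8, 16), (1312, 2064), (544, 2049), (18,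
   517), (1536, 2305), (17, 772), (6, 1536), (2064, 1312), (257, 2052), (1280, 36), (4, 8), (40,
   2064), (9, 3584), (2049, 544), (1040, 40), (264, 2576), (48, 264), (16, 776), (2056, 1280),
   (256, 2056), (513, 34), (2, 513), (2048, 2), (1024, 4), (2, 552), (516, 9), (32, 516)]

theorem chain_true : Pool.Agent.R140.Ear.chainB moves Bp [525] = true := by decide +kernel

theorem lt_Bp : ∀ b ∈ Bp, b < 2 ^ 31 := by decide +kernel

open Pool.Agent.Helper175.NS (Sp gen mem_gen space_gen relabel_homeo) in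
theorem base_ball : Nonempty (Sp (Pool.Agent.R140.Ear.decL Bp) ≃ₜ
    Metric.closedBall (0 : EuclideanSpace ℝ (Fin 3)) 1) := by
  obtain ⟨e1⟩ := Pool.Agent.R140.Ear.chain_homeo moves Bp [525] lt_Bp chain_true
  have h1 : Pool.Agent.R140.Ear.decL [525] = {Pool.Agent.R140.Ear.dm 525} := rfl
  rw [h1] at e1
  obtain ⟨e2⟩ := Pool.Agent.R140.Ear.simplex_ball (A := Pool.Agent.R140.Ear.dm 525) (n := 3)
    (by rw [Pool.Agent.R140.Ear.card_dm]; decide +kernel)
  exact ⟨e1.trans e2⟩

/-- the iterated cones as complexes on `ℕ` -/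
def KE : ℕ → Cpx
  | 0 => ⟨(Pool.Agent.Helper175.NS.gen (Pool.Agent.R140.Ear.decL Bp)).faces, by
      rw [Pool.Agent.Helper175.NS.mem_gen]
      exact ⟨_, Pool.Agent.R140.Ear.mem_decL.2 ⟨15, by decide, rfl⟩, empty_subset _⟩,
      (Pool.Agent.Helper175.NS.gen (Pool.Agent.R140.Ear.decL Bp)).down⟩
  | m + 1 => cone (KE m) (12 + m)

theorem mem_KE (m : ℕ) {σ : Finset ℕ} : σ ∈ (KE m).faces ↔
    σ ⊆ range (12 + m) ∧ ∃ b ∈ Bp, ∀ i ∈ σ, i < 12 → b.testBit i = true := by
  induction m generalizing σ with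
  | zero =>
    show σ ∈ (Pool.Agent.Helper175.NS.gen (Pool.Agent.R140.Ear.decL Bp)).faces ↔ _
    rw [Pool.Agent.Helper175.NS.mem_gen]
    constructor
    · rintro ⟨F, hF, h⟩
      obtain ⟨b, hb, rfl⟩ := Pool.Agent.R140.Ear.mem_decL.1 hF
      have h12 : ∀ i ∈ Pool.Agent.R140.Ear.dm b, i < 12 := by
        intro i hi
        rw [Pool.Agent.R140.Ear.mem_dm] at hi
        by_contra hcon
        have h3 : b < 2 ^ 12 := (by decide +kernel : ∀ b ∈ Bp, b < 2 ^ 12) b hb
        rw [Nat.testBit_eq_false_of_lt (h3.trans_le (Nat.pow_le_pow_right (by norm_num)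
          (by omega)))] at hi
        exact absurd hi.2 (by simp)
      refine ⟨fun i hi => mem_range.2 (h12 i (h hi)), b, hb, fun i hi _ => ?_⟩
      exact (Pool.Agent.R140.Ear.mem_dm.1 (h hi)).2
    · rintro ⟨h1, b, hb, h2⟩
      refine ⟨Pool.Agent.R140.Ear.dm b, Pool.Agent.R140.Ear.mem_decL.2 ⟨b, hb, rfl⟩, ?_⟩
      intro i hi
      have h3 : i < 12 := by simpa using mem_range.1 (h1 hi)
      exact Pool.Agent.R140.Ear.mem_dm.2 ⟨by omega, h2 i hi h3⟩
  | succ m ih =>
    have hf : (KE m).Fresh (12 + m) := by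
      intro σ hσ h
      have := mem_range.1 ((ih.1 hσ).1 h)
      omega
    show σ ∈ (cone (KE m) (12 + m)).faces ↔ _
    rw [mem_cone hf, ih]
    constructor
    · rintro ⟨h1, b, hb, h2⟩
      refine ⟨fun i hi => ?_, b, hb, fun i hi h3 => h2 i (mem_erase.2 ⟨by omega, hi⟩) h3⟩
      rw [mem_range]
      by_cases h : i = 12 + m
      · omega
      · have := mem_range.1 (h1 (mem_erase.2 ⟨h, hi⟩))
        omega
    · rintro ⟨h1, b, hb, h2⟩
      refine ⟨fun i hi => ?_, b, hb, fun i hi h3 => h2 i (mem_of_mem_erase hi) h3⟩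
      rw [mem_erase] at hi
      have := mem_range.1 (h1 hi.2)
      rw [mem_range]
      omega

theorem KE_fresh (m : ℕ) : (KE m).Fresh (12 + m) := by
  intro σ hσ h
  have := mem_range.1 (((mem_KE m).1 hσ).1 h)
  omega

theorem KE_ball (m : ℕ) : (KE m).IsBall (m + 3) := by
  induction m with
  | zero =>
    obtain ⟨e⟩ := base_ball
    rw [← Pool.Agent.Helper175.NS.space_gen] at e
    exact ⟨e⟩
  | succ m ih =>
    have := cone_ball (KE_fresh m) ih
    have e : m + 1 + 3 = m + 3 + 1 := by omega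
    rw [e]
    exact this

open Pool.Agent.Helper175.NS (Sp relabel_homeo)

theorem realization_eq (m : ℕ) : realization (KK m) = Sp (KK m) := by
  ext x
  constructor
  · rintro ⟨h0, h1, σ, hσ, h2⟩
    refine ⟨h0, σ, hσ, h2, ?_⟩
    rw [← h1]
    exact sum_subset (subset_univ _) (fun i _ hi => h2 i hi)
  · rintro ⟨h0, F, hF, h1, h2⟩
    refine ⟨h0, ?_, F, hF, h1⟩
    rw [← h2]
    exact (sum_subset (subset_univ _) (fun i _ hi => h1 i hi)).symm

theorem image_KK (m : ℕ) : (KK m).image (fun F => F.image Fin.val) = (KE m).faces := by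
  ext σ
  rw [mem_image, mem_KE]
  constructor
  · rintro ⟨F, hF, rfl⟩
    obtain ⟨b, hb, h⟩ := mem_KK.1 hF
    refine ⟨?_, b, hb, ?_⟩
    · intro i hi
      obtain ⟨j, -, rfl⟩ := mem_image.1 hi
      exact mem_range.2 j.2
    · intro i hi h3
      obtain ⟨j, hj, rfl⟩ := mem_image.1 hi
      exact mem_FF.1 (h hj) h3
  · rintro ⟨h1, b, hb, h2⟩
    refine ⟨univ.filter (fun j : Fin (12 + m) => (j : ℕ) ∈ σ), mem_KK.2 ⟨b, hb, ?_⟩, ?_⟩
    · intro j hj
      exact mem_FF.2 fun h => h2 _ (mem_filter.1 hj).2 h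
    · ext i
      rw [mem_image]
      constructor
      · rintro ⟨j, hj, rfl⟩
        exact (mem_filter.1 hj).2
      · intro hi
        exact ⟨⟨i, mem_range.1 (h1 hi)⟩, mem_filter.2 ⟨mem_univ _, hi⟩, rfl⟩

theorem isBall_KK (m : ℕ) : IsBall (m + 3) (KK m) := by
  unfold IsBall
  rw [realization_eq]
  obtain ⟨e1⟩ := relabel_homeo (KK m) (Fin.val : Fin (12 + m) → ℕ) univ
    (fun F _ => subset_univ F) (Fin.val_injective.injOn)
  rw [image_KK] at e1
  obtain ⟨e2⟩ := KE_ball m
  exact ⟨e1.symm.trans e2⟩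

end Pool.Agent.Run7.h935.NLC
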