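import Mathlib
import Pool.Agent.Run7.h935.NLC.Comb
import Pool.Agent.Y364.NL.Abs
import Pool.Agent.Y364.E3.Tree
import Pool.Agent.Helper175.NS.Local

set_option autoImplicit false

/-!
# The iterated cones are not locally constructible
-/

namespace Pool.Agent.Run7.h935.NLC

open Finset Pool.Agent.H933R3
open Pool.Agent.Y364.NL (Loc not_lc)
open Pool.Agent.Y364.E3 (TreeStage GlueStage IsTreeLC)

/-- the regular vertices -/
def Reg {m : ℕ} (u : Fin (12 + m)) : Prop := (u : ℕ) < 10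

/-- the transition functions -/
def tr {m : ℕ} (u v : Fin (12 + m)) (c : Fin 3) : Fin 3 := Pool.Agent.Helper175.NS.psi u v c

theorem mem_A0 {m : ℕ} {i : Fin (12 + m)} : i ∈ FF m 3072 ↔ 10 ≤ (i : ℕ) := by
  rw [mem_FF]
  have h : ∀ n < 12, (Nat.testBit 3072 n = true ↔ 10 ≤ n) := by decide
  constructor
  · intro h1
    by_cases h2 : (i : ℕ) < 12
    · exact (h _ h2).1 (h1 h2)
    · omega
  · intro h1 h2
    exact (h _ h2).2 h1

theorem card_A0 (m : ℕ) : (FF m 3072).card = m + 2 := by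
  rw [card_FF]
  rfl

theorem tr_diag : ∀ n < 10, ∀ c : Fin 3, Pool.Agent.Helper175.NS.psi n n c = c := by
  decide +kernel

def bt (b : ℕ) : List ℕ := (List.range 10).filter (fun i => b.testBit i)

theorem mem_bt {m b : ℕ} {i : Fin (12 + m)} (h : i ∈ FF m b) (hr : Reg i) : (i : ℕ) ∈ bt b := by
  rw [bt, List.mem_filter, List.mem_range]
  exact ⟨hr, mem_FF.1 h (by unfold Reg at hr; omega)⟩

theorem coc_all : ∀ b ∈ Bp, ∀ u ∈ bt b, ∀ v ∈ bt b, ∀ w ∈ bt b, ∀ c : Fin 3,
    Pool.Agent.Helper175.NS.psi v w (Pool.Agent.Helper175.NS.psi u v c) =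
      Pool.Agent.Helper175.NS.psi u w c := by
  decide +kernel

theorem edge_all : ∀ b ∈ Bp, b.testBit 10 = true → b.testBit 11 = true → ∀ u ∈ bt b,
    u = 4 ∨ u = 6 ∨ u = 9 := by
  decide +kernel

theorem edge_nb {m : ℕ} {X : Finset (Fin (12 + m))} (hX : IsFacet (KK m) X) (hA : FF m 3072 ⊆ X)
    {u : Fin (12 + m)} (hu : u ∈ X) (hr : Reg u) :
    (u : ℕ) = 4 ∨ (u : ℕ) = 6 ∨ (u : ℕ) = 9 := by
  obtain ⟨b, hb, rfl⟩ := isFacet_iff.1 hX
  have h10 : (⟨10, by omega⟩ : Fin (12 + m)) ∈ FF m b := hA (mem_A0.2 (by simp))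
  have h11 : (⟨11, by omega⟩ : Fin (12 + m)) ∈ FF m b := hA (mem_A0.2 (by simp))
  exact edge_all b hb (mem_FF.1 h10 (by simp)) (mem_FF.1 h11 (by simp)) _ (mem_bt hu hr)

theorem exists_reg {m : ℕ} {A : Finset (Fin (12 + m))} (h : ¬ A ⊆ FF m 3072) : ∃ u ∈ A, Reg u := by
  rw [Finset.not_subset] at h
  obtain ⟨u, hu, h1⟩ := h
  rw [mem_A0] at h1
  exact ⟨u, hu, by unfold Reg; omega⟩

/-- a ridge containing `A0` -/
theorem ridge_eq {m : ℕ} {R : Finset (Fin (12 + m))} (hR : R.card = m + 3) (hA : FF m 3072 ⊆ R) :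
    ∃ x, x ∉ FF m 3072 ∧ R = insert x (FF m 3072) := by
  have h1 : (R \ FF m 3072).card = 1 := by
    rw [card_sdiff_of_subset hA, hR, card_A0]
    omega
  obtain ⟨x, hx⟩ := card_eq_one.1 h1
  have h2 : x ∈ R \ FF m 3072 := by rw [hx]; exact mem_singleton_self x
  refine ⟨x, (mem_sdiff.1 h2).2, ?_⟩
  rw [← sdiff_union_of_subset hA, hx]
  rfl

theorem loc_KK (m : ℕ) : Loc (m + 3) (KK m) Reg tr (FF m 3072) (fun _ => 1) where
  id F hF u hu hQ c := tr_diag _ hQ c
  coc F hF u hu hQu v hv hQv w hw hQw c := by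
    obtain ⟨b, hb, rfl⟩ := isFacet_iff.1 hF
    exact coc_all b hb _ (mem_bt hu hQu) _ (mem_bt hv hQv) _ (mem_bt hw hQw) c
  reg A hA hne _ := by
    apply exists_reg
    intro h
    apply hne
    refine eq_of_subset_of_card_le h ?_
    rw [card_A0]; omega
  regR R hR _ := by
    apply exists_reg
    intro h
    have := card_le_card h
    rw [card_A0] at this
    omega
  col F hF hA u hu hQu v hv hQv := by
    have h1 := edge_nb hF hA hu hQu
    have h2 := edge_nb hF hA hv hQv
    show Pool.Agent.Helper175.NS.psi u v 1 = 1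
    rcases h1 with h1 | h1 | h1 <;> rcases h2 with h2 | h2 | h2 <;> rw [h1, h2] <;> decide
  cyc F F' R hF hF' hne hR hA h1 h2 G hG1 hG2 R' hA' hR' hX := by
    obtain ⟨R1, hR1, j1, j2, j3, j4⟩ := hG1
    obtain ⟨R2, hR2, k1, k2, k3, k4⟩ := hG2
    obtain ⟨X, hX, hRX⟩ := hX
    obtain ⟨x, hx, ex⟩ := ridge_eq hR hA
    obtain ⟨y, hy, ey⟩ := ridge_eq j2 j1
    obtain ⟨z, hz, ez⟩ := ridge_eq k2 k1
    obtain ⟨w, hw, ew⟩ := ridge_eq hR' hA'
    have hxR : x ∈ R := by rw [ex]; exact mem_insert_self _ _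
    have hyR : y ∈ R1 := by rw [ey]; exact mem_insert_self _ _
    have hzR : z ∈ R2 := by rw [ez]; exact mem_insert_self _ _
    have hwR : w ∈ R' := by rw [ew]; exact mem_insert_self _ _
    have hxy : x ≠ y := by rintro rfl; exact j4 (by rw [ex, ey])
    have hxz : x ≠ z := by rintro rfl; exact k4 (by rw [ex, ez])
    have hcF := card_facet hF
    have hcF' := card_facet hF'
    have hFe : insert x R1 = F := by
      refine eq_of_subset_of_card_le (insert_subset (h1 hxR) j3) ?_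
      rw [card_insert_of_notMem, j2, hcF]
      rw [ey, mem_insert]
      rintro (h | h)
      · exact hxy h
      · exact hx h
    have hFe' : insert x R2 = F' := by
      refine eq_of_subset_of_card_le (insert_subset (h2 hxR) k3) ?_
      rw [card_insert_of_notMem, k2, hcF']
      rw [ez, mem_insert]
      rintro (h | h)
      · exact hxz h
      · exact hx h
    have hyz : y ≠ z := by
      rintro rfl
      apply hne
      rw [← hFe, ← hFe', ey, ez]
    have rx : Reg x := by rw [mem_A0] at hx; unfold Reg; omega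
    have ry : Reg y := by rw [mem_A0] at hy; unfold Reg; omega
    have rz : Reg z := by rw [mem_A0] at hz; unfold Reg; omega
    have rw' : Reg w := by rw [mem_A0] at hw; unfold Reg; omega
    have nx := edge_nb hF (hA.trans h1) (h1 hxR) rx
    have ny := edge_nb hF (hA.trans h1) (j3 hyR) ry
    have nz := edge_nb hF' (hA.trans h2) (k3 hzR) rz
    have nw := edge_nb hX (hA'.trans hRX) (hRX hwR) rw'
    have vxy : (x : ℕ) ≠ y := fun h => hxy (Fin.ext h)
    have vxz : (x : ℕ) ≠ z := fun h => hxz (Fin.ext h)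
    have vyz : (y : ℕ) ≠ z := fun h => hyz (Fin.ext h)
    have key : (w : ℕ) = x ∨ (w : ℕ) = y ∨ (w : ℕ) = z := by omega
    rcases key with h | h | h
    · have : w = x := Fin.ext h
      rw [ew, this, ← ex]; exact mem_insert_self _ _
    · have : w = y := Fin.ext h
      rw [ew, this, ← ey]; exact mem_insert_of_mem hR1
    · have : w = z := Fin.ext h
      rw [ew, this, ← ez]; exact mem_insert_of_mem hR2

/-- paths of facets around a vertex -/
def pathB (v : ℕ) : ℕ → List ℕ → Bool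
  | _, [] => true
  | b, c :: l => Bp.contains c && (Nat.beq (pc (b &&& c)) 3 && ((b &&& c).testBit v && pathB v c l))

def endp : ℕ → List ℕ → ℕ
  | b, [] => b
  | _, c :: l => endp c l

section Transport

variable {m : ℕ} {g : Finset (Fin (12 + m)) → Fin (12 + m) → Fin 3}

theorem path_eq (hg : ∀ R : Finset (Fin (12 + m)), R.card = m + 3 → ∀ X Y, IsFacet (KK m) X →
      IsFacet (KK m) Y → R ⊆ X → R ⊆ Y → ∀ u ∈ R, Reg u → g X u = g Y u)
    {u : Fin (12 + m)} (hu : Reg u) : ∀ (l : List ℕ) (b : ℕ), b ∈ Bp →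
      pathB (u : ℕ) b l = true → g (FF m b) u = g (FF m (endp b l)) u := by
  intro l
  induction l with
  | nil => intro b _ _; rfl
  | cons c l ih =>
    intro b hb h
    rw [pathB, Bool.and_eq_true, Bool.and_eq_true, Bool.and_eq_true, List.contains_iff_mem,
      Nat.beq_eq] at h
    obtain ⟨h1, h2, h3, h4⟩ := h
    rw [endp, ← ih c h1 h4]
    refine hg (FF m (b &&& c)) (by rw [card_FF, h2]) _ _ (isFacet_iff.2 ⟨b, hb, rfl⟩)
      (isFacet_iff.2 ⟨c, h1, rfl⟩) ?_ ?_ u (mem_FF.2 fun _ => h3) hu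
    · rw [← FF_inter]; exact inter_subset_left
    · rw [← FF_inter]; exact inter_subset_right

end Transport

theorem not_isLC_KK (m : ℕ) : ¬ IsLC (m + 3) (KK m) := by
  refine not_lc (loc_KK m) ?_ (isCx_KK m).2 ?_
  · intro F hF
    apply exists_reg
    intro h
    have h1 := card_le_card h
    have h2 := card_facet hF
    rw [card_A0] at h1
    omega
  · rintro ⟨g, hg1, hg2⟩
    have key : ∀ b ∈ Bp, ∀ (u v : ℕ) (hu : u < 10) (hv : v < 10), b.testBit u = true →
        b.testBit v = true → g (FF m b) ⟨v, by omega⟩ =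
          Pool.Agent.Helper175.NS.psi u v (g (FF m b) ⟨u, by omega⟩) := by
      intro b hb u v hu hv h1 h2
      exact hg1 (FF m b) (isFacet_iff.2 ⟨b, hb, rfl⟩) ⟨u, by omega⟩ (mem_FF.2 fun _ => h1) hu
        ⟨v, by omega⟩ (mem_FF.2 fun _ => h2) hv
    have P : ∀ (v : ℕ) (hv : v < 10) (b : ℕ) (l : List ℕ), b ∈ Bp → pathB v b l = true →
        g (FF m b) ⟨v, by omega⟩ = g (FF m (endp b l)) ⟨v, by omega⟩ :=
      fun v hv b l hb h => path_eq hg2 (u := ⟨v, by omega⟩) hv l b hb h
    have p0 := P 0 (by norm_num) 23 [531, 1553, 1073] (by decide) (by decide)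
    have p1 := P 1 (by norm_num) 23 [531, 579, 2626, 2242] (by decide) (by decide)
    have p2 := P 2 (by norm_num) 23 [15, 1038, 1068] (by decide) (by decide)
    have p5 := P 5 (by norm_num) 1068 [1192, 1185, 1073] (by decide) (by decide)
    have p5' := P 5 (by norm_num) 1073 [1185] (by decide) (by decide)
    have p7 := P 7 (by norm_num) 2242 [2434, 2433, 2209, 1185] (by decide) (by decide)
    simp only [endp] at p0 p1 p2 p5 p5' p7
    have h1 := key 23 (by decide) 0 1 (by norm_num) (by norm_num) (by decide) (by decide)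
    have h2 := key 23 (by decide) 0 2 (by norm_num) (by norm_num) (by decide) (by decide)
    have h3 := key 1068 (by decide) 2 5 (by norm_num) (by norm_num) (by decide) (by decide)
    have h5 := key 2242 (by decide) 1 7 (by norm_num) (by norm_num) (by decide) (by decide)
    have h6 := key 1073 (by decide) 0 5 (by norm_num) (by norm_num) (by decide) (by decide)
    have h7 := key 1185 (by decide) 5 7 (by norm_num) (by norm_num) (by decide) (by decide)
    rw [← p1] at h5
    rw [← p0, ← p5] at h6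
    rw [← p2] at h3
    rw [← p5', ← p5, ← p7] at h7
    generalize g (FF m 23) ⟨0, _⟩ = a0 at *
    generalize g (FF m 23) ⟨1, _⟩ = a1 at *
    generalize g (FF m 23) ⟨2, _⟩ = a2 at *
    generalize g (FF m 1068) ⟨5, _⟩ = a5 at *
    generalize g (FF m 2242) ⟨7, _⟩ = a7 at *
    clear p0 p1 p2 p5 p5' p7 P key hg1 hg2
    revert a0 a1 a2 a5 a7
    decide

theorem lc_of_tree {V : Type} [DecidableEq V] {d : ℕ} {K 𝓕 T : Finset (Finset V)}
    (h : TreeStage d K 𝓕 T) : LCStage d K 𝓕 T := by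
  induction h with
  | start F hF => exact LCStage.start F hF
  | attach 𝓕 T F F' R h hF hF' hn hR h1 h2 hT ih =>
    exact LCStage.attach 𝓕 T F F' R ih hF hF' hn hR h1 h2 hT

theorem lc_of_glue {V : Type} [DecidableEq V] {d : ℕ} {K 𝓕 T G : Finset (Finset V)}
    (hT : LCStage d K 𝓕 T) (h : GlueStage d 𝓕 T G) : LCStage d K 𝓕 G := by
  induction h with
  | start => exact hT
  | glue G F F' R A h hF hF' hne hR h1 h2 hG hA hAR hs ih =>
    exact LCStage.glue 𝓕 G F F' R A ih hF hF' hne hR h1 h2 hG hA hAR hs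

theorem isLC_of_isTreeLC {V : Type} [DecidableEq V] {d : ℕ} {K : Finset (Finset V)}
    (h : IsTreeLC d K) : IsLC d K := by
  obtain ⟨h1, h2, 𝓕, T, G, h3, h4, h5⟩ := h
  exact ⟨h1, h2, 𝓕, G, lc_of_glue (lc_of_tree h3) h4, h5⟩

theorem not_isTreeLC_KK (m : ℕ) : ¬ IsTreeLC (m + 3) (KK m) :=
  fun h => not_isLC_KK m (isLC_of_isTreeLC h)

end Pool.Agent.Run7.h935.NLC
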